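import Pool.Agent.H46.Lib.R_seed8.H341R2.NF.ECCount

/-! A singular Weierstrass equation over a finite field has a solution. -/

set_option autoImplicit false

namespace Pool.Agent.R333.BR

open Pool.Agent.H341R2.EC

theorem root_surj {k : Type*} [Field k] [Finite k] (p : ℕ) [hp : Fact p.Prime] [CharP k p] (a : k) :
    ∃ x : k, x ^ p = a := by
  have h1 : Function.Injective (frobenius k p) := frobenius_inj k p
  obtain ⟨x, hx⟩ := Finite.surjective_of_injective h1 a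
  exact ⟨x, hx⟩

theorem exists_pt {k : Type*} [Field k] [Finite k] (V : WeierstrassCurve k) (h : V.Δ = 0) :
    ∃ x y : k, y ^ 2 + V.a₁ * x * y + V.a₃ * y = x ^ 3 + V.a₂ * x ^ 2 + V.a₄ * x + V.a₆ := by
  by_cases h2 : (2 : k) = 0
  · -- characteristic two
    have : Fact (Nat.Prime 2) := ⟨Nat.prime_two⟩
    have : CharP k 2 := CharTwo.of_one_ne_zero_of_two_eq_zero one_ne_zero h2
    by_cases ha : V.a₁ = 0
    · have h3 : V.a₃ = 0 := by
        have h4 : V.a₃ ^ 4 = 0 := by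
          rw [WeierstrassCurve.Δ, WeierstrassCurve.b₂, WeierstrassCurve.b₄, WeierstrassCurve.b₆,
            WeierstrassCurve.b₈, ha] at h
          linear_combination (-1 : k) * h - (V.a₃ ^ 4 * 13 + 108 * V.a₃ ^ 2 * V.a₆ + 216 * V.a₆ ^ 2 +
            8 * V.a₂ ^ 2 * (4 * V.a₂ * V.a₆ + V.a₂ * V.a₃ ^ 2 - V.a₄ ^ 2) + 32 * V.a₄ ^ 3 -
            36 * V.a₂ * V.a₄ * (V.a₃ ^ 2 + 4 * V.a₆)) * h2
        exact pow_eq_zero_iff (by norm_num) |>.1 h4
      obtain ⟨y, hy⟩ := root_surj (k := k) 2 V.a₆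
      exact ⟨0, y, by rw [ha, h3, hy]; ring⟩
    · obtain ⟨y, hy⟩ := root_surj (k := k) 2 ((V.a₃ / V.a₁) ^ 3 + V.a₂ * (V.a₃ / V.a₁) ^ 2 +
        V.a₄ * (V.a₃ / V.a₁) + V.a₆)
      refine ⟨V.a₃ / V.a₁, y, ?_⟩
      rw [← hy]
      have e : V.a₁ * (V.a₃ / V.a₁) = V.a₃ := by field_simp
      rw [e]
      linear_combination (V.a₃ * y) * h2
  · -- it suffices to find a root of the cubic
    have h4 : (4 : k) ≠ 0 := by
      have e : (4 : k) = 2 * 2 := by norm_num
      rw [e]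
      exact mul_ne_zero h2 h2
    suffices hx : ∃ x : k, 4 * x ^ 3 + V.b₂ * x ^ 2 + 2 * V.b₄ * x + V.b₆ = 0 by
      obtain ⟨x, hx⟩ := hx
      refine ⟨x, -(V.a₁ * x + V.a₃) / 2, ?_⟩
      rw [WeierstrassCurve.b₂, WeierstrassCurve.b₄, WeierstrassCurve.b₆] at hx
      field_simp
      linear_combination -hx
    have hb8 : 4 * V.b₈ = V.b₂ * V.b₆ - V.b₄ ^ 2 := V.b_relation
    by_cases hc : V.c₄ = 0
    · have hc6 : V.c₆ = 0 := by
        have h5 := V.c_relation
        rw [h, hc] at h5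
        have h6 : V.c₆ ^ 2 = 0 := by linear_combination h5
        exact pow_eq_zero_iff (by norm_num) |>.1 h6
      rw [WeierstrassCurve.c₄] at hc
      rw [WeierstrassCurve.c₆] at hc6
      by_cases h3 : (3 : k) = 0
      · have : Fact (Nat.Prime 3) := ⟨Nat.prime_three⟩
        have : CharP k 3 := by
          obtain ⟨p, hp⟩ := CharP.exists k
          have h6 : p ∣ 3 := (CharP.cast_eq_zero_iff k p 3).1 (by exact_mod_cast h3)
          rcases (Nat.dvd_prime Nat.prime_three).1 h6 with h7 | h7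
          · subst h7
            have h8 := CharP.cast_eq_zero k 1
            rw [Nat.cast_one] at h8
            exact absurd h8 one_ne_zero
          · subst h7
            exact hp
        have hb2 : V.b₂ = 0 := by
          have : V.b₂ ^ 2 = 0 := by linear_combination hc + 8 * V.b₄ * h3
          exact pow_eq_zero_iff (by norm_num) |>.1 this
        have hb4 : V.b₄ = 0 := by
          have : V.b₄ ^ 3 = 0 := by
            rw [WeierstrassCurve.Δ, hb2] at h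
            linear_combination h + (3 * V.b₄ ^ 3 + 9 * V.b₆ ^ 2) * h3
          exact pow_eq_zero_iff (by norm_num) |>.1 this
        obtain ⟨x, hx⟩ := root_surj (k := k) 3 (-V.b₆)
        refine ⟨x, ?_⟩
        rw [hb2, hb4]
        linear_combination 4 * hx - V.b₆ * h3
      · refine ⟨-V.b₂ / 12, ?_⟩
        have h12 : (12 : k) ≠ 0 := by
          have e : (12 : k) = 4 * 3 := by norm_num
          rw [e]
          exact mul_ne_zero h4 h3
        have h216 : (216 : k) ≠ 0 := by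
          have e : (216 : k) = 12 * (2 * (3 * 3)) := by norm_num
          rw [e]
          exact mul_ne_zero h12 (mul_ne_zero h2 (mul_ne_zero h3 h3))
        have h7 : (216 : k) * (4 * (-V.b₂ / 12) ^ 3 + V.b₂ * (-V.b₂ / 12) ^ 2 +
            2 * V.b₄ * (-V.b₂ / 12) + V.b₆) = 0 := by
          have e : V.b₂ = 12 * (V.b₂ / 12) := by field_simp
          set z := V.b₂ / 12 with hz
          have e2 : -V.b₂ / 12 = -z := by rw [hz]; ring
          rw [e2]
          rw [e] at hc6 ⊢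
          linear_combination -hc6
        exact (mul_eq_zero.1 h7).resolve_left h216
    · refine ⟨(18 * V.b₆ - V.b₂ * V.b₄) / V.c₄, ?_⟩
      have h8 : V.c₄ ^ 3 * (4 * ((18 * V.b₆ - V.b₂ * V.b₄) / V.c₄) ^ 3 +
          V.b₂ * ((18 * V.b₆ - V.b₂ * V.b₄) / V.c₄) ^ 2 +
          2 * V.b₄ * ((18 * V.b₆ - V.b₂ * V.b₄) / V.c₄) + V.b₆) = 0 := by
        have e : V.c₄ ^ 3 * (4 * ((18 * V.b₆ - V.b₂ * V.b₄) / V.c₄) ^ 3 +
          V.b₂ * ((18 * V.b₆ - V.b₂ * V.b₄) / V.c₄) ^ 2 +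
          2 * V.b₄ * ((18 * V.b₆ - V.b₂ * V.b₄) / V.c₄) + V.b₆) =
          4 * (18 * V.b₆ - V.b₂ * V.b₄) ^ 3 + V.b₂ * (18 * V.b₆ - V.b₂ * V.b₄) ^ 2 * V.c₄ +
          2 * V.b₄ * (18 * V.b₆ - V.b₂ * V.b₄) * V.c₄ ^ 2 + V.b₆ * V.c₄ ^ 3 := by
          field_simp
        rw [e]
        have h9 : -V.b₂ ^ 2 * V.b₈ - 8 * V.b₄ ^ 3 - 27 * V.b₆ ^ 2 + 9 * V.b₂ * V.b₄ * V.b₆ = 0 := h
        rw [WeierstrassCurve.c₄]
        linear_combination 4 * (-V.b₂ ^ 3 + 36 * V.b₂ * V.b₄ - 216 * V.b₆) * h9 +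
          (-V.b₂ ^ 3 + 36 * V.b₂ * V.b₄ - 216 * V.b₆) * V.b₂ ^ 2 * hb8
      exact (mul_eq_zero.1 h8).resolve_left (pow_ne_zero 3 hc)

theorem aff_pos {k : Type*} [Field k] [Finite k] (V : WeierstrassCurve k) (h : V.Δ = 0) :
    0 < aff V := by
  obtain ⟨x, y, hxy⟩ := exists_pt V h
  unfold aff
  exact Nat.card_pos_iff.2 ⟨⟨⟨(x, y), hxy⟩⟩, inferInstance⟩

end Pool.Agent.R333.BR
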