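import Pool.Agent.H46.Lib.R_seed8.R333.BR.Rank

/-! Galois descent for the points of a Weierstrass curve. -/

set_option autoImplicit false

namespace Pool.Agent.R333.BR

open scoped Classical

open WeierstrassCurve WeierstrassCurve.Affine
open Pool.Agent.R433.MD (fx)

/-- `E(F)` -/
abbrev Pt {K : Type} [Field K] (E : WeierstrassCurve K) (F : Type) [Field F] [Algebra K F] : Type :=
  (E.map (algebraMap K F)).toAffine.Point

section
variable {K : Type} [Field K] (E : WeierstrassCurve K)

/-- the homomorphism `E(F) → E(F')` -/
noncomputable def mp {F F' : Type} [Field F] [Algebra K F] [Field F'] [Algebra K F']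
    (f : F →ₐ[K] F') : Pt E F →+ Pt E F' := Point.map (W' := E.toAffine) f

theorem mp_zero {F F' : Type} [Field F] [Algebra K F] [Field F'] [Algebra K F']
    (f : F →ₐ[K] F') : mp E f (Point.zero) = Point.zero := rfl

theorem mp_some {F F' : Type} [Field F] [Algebra K F] [Field F'] [Algebra K F']
    (f : F →ₐ[K] F') {x y : F} (h : (E.map (algebraMap K F)).toAffine.Nonsingular x y) :
    ∃ h', mp E f (Point.some x y h) = Point.some (f x) (f y) h' := ⟨_, rfl⟩

theorem mp_mp {F F' F'' : Type} [Field F] [Algebra K F] [Field F'] [Algebra K F'] [Field F'']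
    [Algebra K F''] (f : F →ₐ[K] F') (g : F' →ₐ[K] F'') (P : Pt E F) :
    mp E g (mp E f P) = mp E (g.comp f) P := Point.map_map (W' := E.toAffine) f g P

theorem mp_inj {F F' : Type} [Field F] [Algebra K F] [Field F'] [Algebra K F']
    (f : F →ₐ[K] F') : Function.Injective (mp E f) := Point.map_injective (W' := E.toAffine) f

theorem mp_id {F : Type} [Field F] [Algebra K F] (P : Pt E F) : mp E (AlgHom.id K F) P = P := by
  cases P <;> rfl

/-- isomorphic fields -/
theorem rank_equiv {F F' : Type} [Field F] [Algebra K F] [Field F'] [Algebra K F']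
    (f : F ≃ₐ[K] F') : Module.rank ℤ (Pt E F) = Module.rank ℤ (Pt E F') := by
  let e : Pt E F ≃+ Pt E F' :=
    { toFun := mp E (f : F →ₐ[K] F')
      invFun := mp E (f.symm : F' →ₐ[K] F)
      left_inv := fun P => by
        rw [mp_mp]
        have e1 : (f.symm : F' →ₐ[K] F).comp (f : F →ₐ[K] F') = AlgHom.id K F := by
          ext x
          exact f.symm_apply_apply x
        rw [e1, mp_id]
      right_inv := fun P => by
        rw [mp_mp]
        have e1 : (f : F →ₐ[K] F').comp (f.symm : F' →ₐ[K] F) = AlgHom.id K F' := by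
          ext x
          exact f.apply_symm_apply x
        rw [e1, mp_id]
      map_add' := map_add _ }
  exact e.toIntLinearEquiv.rank_eq

/-- the rank over the base field itself -/
theorem rank_self : Module.rank ℤ (Pt E K) = Module.rank ℤ E.toAffine.Point := by
  have e : E.map (algebraMap K K) = E := E.map_id
  unfold Pt
  rw [e]

variable {L : Type} [Field L] [Algebra K L]

/-- the Galois action on the points -/
noncomputable def actPt : Representation ℤ Gal(L/K) (Pt E L) where
  toFun g := (mp E (g : L →ₐ[K] L)).toIntLinearMap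
  map_one' := by
    ext P
    exact mp_id E P
  map_mul' g g' := by
    ext P
    exact (mp_mp E (g' : L →ₐ[K] L) (g : L →ₐ[K] L) P).symm

theorem actPt_apply (g : Gal(L/K)) (P : Pt E L) : actPt E g P = mp E (g : L →ₐ[K] L) P := rfl

variable [FiniteDimensional K L] [IsGalois K L]

/-- **Galois descent** -/
theorem range_mp {F : Type} [Field F] [Algebra K F] (f : F →ₐ[K] L) :
    LinearMap.range (mp E f).toIntLinearMap = fixed (actPt E) f.fieldRange.fixingSubgroup := by
  ext P
  constructor
  · rintro ⟨Q, rfl⟩ g
    change mp E ((g : Gal(L/K)) : L →ₐ[K] L) (mp E f Q) = mp E f Q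
    have e1 : ((g : Gal(L/K)) : L →ₐ[K] L).comp f = f := by
      ext x
      exact g.2 ⟨f x, x, rfl⟩
    rw [mp_mp, e1]
  · intro hP
    have hP' : ∀ g : Gal(L/K), g ∈ f.fieldRange.fixingSubgroup → mp E (g : L →ₐ[K] L) P = P :=
      fun g hg => hP ⟨g, hg⟩
    rcases P with _ | ⟨x, y, hxy⟩
    · exact ⟨0, rfl⟩
    · have hcoord : (∀ g : Gal(L/K), g ∈ f.fieldRange.fixingSubgroup → g x = x) ∧
          ∀ g : Gal(L/K), g ∈ f.fieldRange.fixingSubgroup → g y = y := by
        constructor
        · intro g hg
          obtain ⟨h', h1⟩ := mp_some E (g : L →ₐ[K] L) hxy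
          have h2 := hP' g hg
          rw [h1] at h2
          exact (Point.some.inj h2).1
        · intro g hg
          obtain ⟨h', h1⟩ := mp_some E (g : L →ₐ[K] L) hxy
          have h2 := hP' g hg
          rw [h1] at h2
          exact (Point.some.inj h2).2
      have hmem : ∀ z : L, (∀ g : Gal(L/K), g ∈ f.fieldRange.fixingSubgroup → g z = z) →
          ∃ w, f w = z := by
        intro z hz
        have h1 : z ∈ f.fieldRange := by
          rw [← IsGalois.fixedField_fixingSubgroup f.fieldRange,
            IntermediateField.mem_fixedField_iff]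
          exact hz
        exact h1
      obtain ⟨x', rfl⟩ := hmem x hcoord.1
      obtain ⟨y', rfl⟩ := hmem y hcoord.2
      have hxy' : (E.map (algebraMap K F)).toAffine.Nonsingular x' y' := by
        exact (E.toAffine.baseChange_nonsingular f.injective _ _).1 hxy
      exact ⟨Point.some _ _ hxy', rfl⟩

theorem rank_emb {F : Type} [Field F] [Algebra K F] (f : F →ₐ[K] L) :
    Module.rank ℤ (Pt E F) = Module.rank ℤ (fixed (actPt (L := L) E) f.fieldRange.fixingSubgroup) := by
  rw [← range_mp]
  exact (LinearEquiv.ofInjective _ (mp_inj E f)).rank_eq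

/-- relations between ranks -/
theorem rank_rel {ι : Type} [Fintype ι] [Nonempty ι] (F : ι → Type) [∀ i, Field (F i)]
    [∀ i, Algebra K (F i)] (f : ∀ i, F i →ₐ[K] L) (e : ι → ℤ)
    (m : ℤ) (h : ∀ g : Gal(L/K), ∑ i, e i * fx (f i).fieldRange.fixingSubgroup g = m) (r : ι → ℕ)
    (hr : ∀ i, Module.rank ℤ (Pt E (F i)) = r i) :
    ∃ r0 : ℕ, Module.rank ℤ E.toAffine.Point = r0 ∧ m * (r0 : ℤ) = ∑ i, e i * (r i : ℤ) := by
  have h1 : ∀ i, Module.rank ℚ (Representation.invariants
      ((ext (actPt (L := L) E)).comp (f i).fieldRange.fixingSubgroup.subtype)) = r i := fun i => by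
    rw [rank_fixed, ← rank_emb, hr]
  have hfin : ∀ i, FiniteDimensional ℚ (Representation.invariants
      ((ext (actPt (L := L) E)).comp (f i).fieldRange.fixingSubgroup.subtype)) := fun i => by
    refine Module.rank_lt_aleph0_iff.1 ?_
    rw [h1]
    exact Cardinal.natCast_lt_aleph0
  obtain ⟨h2, h3⟩ := rel_inv (fun i => (f i).fieldRange.fixingSubgroup) e m
    (ext (actPt (L := L) E)) h hfin
  have h4 : Module.rank ℚ (Representation.invariants (ext (actPt (L := L) E))) =
      Module.rank ℤ E.toAffine.Point := by
    have h5 := rank_fixed (actPt (L := L) E) (Algebra.ofId K L).fieldRange.fixingSubgroup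
    rw [← rank_emb, rank_self] at h5
    rw [← h5]
    have e1 : Representation.invariants (ext (actPt (L := L) E)) = Representation.invariants
        ((ext (actPt (L := L) E)).comp (Algebra.ofId K L).fieldRange.fixingSubgroup.subtype) := by
      ext x
      rw [Representation.mem_invariants, Representation.mem_invariants]
      constructor
      · intro h g
        exact h g
      · intro h g
        exact h ⟨g, by
          rintro ⟨_, y, rfl⟩
          exact g.commutes y⟩
    rw [e1]
  refine ⟨Module.finrank ℚ (Representation.invariants (ext (actPt (L := L) E))), ?_, ?_⟩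
  · rw [← h4, Module.finrank_eq_rank]
  · rw [h3]
    refine Finset.sum_congr rfl fun i _ => ?_
    have h5 : Module.finrank ℚ (Representation.invariants
      ((ext (actPt (L := L) E)).comp (f i).fieldRange.fixingSubgroup.subtype)) = r i := by
      rw [Module.finrank, h1]
      exact Cardinal.toNat_natCast _
    rw [h5]

end

end Pool.Agent.R333.BR
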