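import Pool.Agent.H46.Lib.R_seed8.R433.MD.Burnside

/-! Relations between permutation characters give relations between the dimensions of invariants. -/

set_option autoImplicit false

namespace Pool.Agent.R333.BR

open Module Representation TensorProduct
open Pool.Agent.R433.MD (fx)

section chars

variable {G : Type} [Group G] [Fintype G]

/-- class functions -/
theorem sum_fx (H : Subgroup G) (T : G → ℚ) (hT : ∀ x g, T (x * g * x⁻¹) = T g) :
    ∑ g : G, (fx H g : ℚ) * T g = (Nat.card G : ℚ) * ((Nat.card H : ℚ)⁻¹ * ∑ᶠ h : H, T h) := by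
  classical
  let _ : Fintype (G ⧸ H) := Fintype.ofFinite _
  let _ : Fintype H := Fintype.ofFinite _
  have h1 : ∀ g, (fx H g : ℚ) = ∑ c : G ⧸ H, if g • c = c then (1 : ℚ) else 0 := by
    intro g
    rw [Finset.sum_boole, fx, Nat.card_eq_fintype_card, Fintype.card_subtype]
    simp
  have h2 : ∀ c : G ⧸ H, ∑ g : G, (if g • c = c then (1 : ℚ) else 0) * T g = ∑ h : H, T h := by
    intro c
    obtain ⟨x, rfl⟩ := QuotientGroup.mk_surjective c
    rw [← Equiv.sum_comp (MulAut.conj x).toEquiv]
    have h3 : ∀ g : G, (if (MulAut.conj x).toEquiv g • (x : G ⧸ H) = x then (1 : ℚ) else 0) *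
        T ((MulAut.conj x).toEquiv g) = if g ∈ H then T g else 0 := by
      intro g
      have e : (MulAut.conj x).toEquiv g = x * g * x⁻¹ := rfl
      rw [e, hT]
      have h4 : (x * g * x⁻¹) • (x : G ⧸ H) = x ↔ g ∈ H := by
        change ((x * g * x⁻¹ * x : G) : G ⧸ H) = x ↔ g ∈ H
        rw [QuotientGroup.eq]
        have e2 : (x * g * x⁻¹ * x)⁻¹ * x = g⁻¹ := by group
        rw [e2, H.inv_mem_iff]
      rw [if_congr h4 rfl rfl]
      split_ifs <;> simp
    rw [Finset.sum_congr rfl fun g _ => h3 g, ← Finset.sum_filter]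
    exact Finset.sum_subtype _ (fun g => by simp) _
  have h3 : (Nat.card G : ℚ) = Nat.card (G ⧸ H) * Nat.card H := by
    exact_mod_cast (H.card_eq_card_quotient_mul_card_subgroup)
  have h4 : (Nat.card H : ℚ) ≠ 0 := by exact_mod_cast Nat.card_pos.ne'
  calc ∑ g : G, (fx H g : ℚ) * T g
      = ∑ g : G, ∑ c : G ⧸ H, (if g • c = c then (1 : ℚ) else 0) * T g := by
        refine Finset.sum_congr rfl fun g _ => ?_
        rw [h1, Finset.sum_mul]
    _ = ∑ c : G ⧸ H, ∑ h : H, T h := by
        rw [Finset.sum_comm]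
        exact Finset.sum_congr rfl fun c _ => h2 c
    _ = _ := by
        rw [Finset.sum_const, Finset.card_univ, nsmul_eq_mul, h3, finsum_eq_sum_of_fintype,
          ← Nat.card_eq_fintype_card]
        field_simp

variable {ι : Type} [Fintype ι] (H : ι → Subgroup G) (e : ι → ℤ) (m : ℤ)

theorem rel_fin {W : Type} [AddCommGroup W] [Module ℚ W] [FiniteDimensional ℚ W]
    (ρ : Representation ℚ G W) (h : ∀ g : G, ∑ i, e i * fx (H i) g = m) :
    m * (finrank ℚ (invariants ρ) : ℤ) =
      ∑ i, e i * (finrank ℚ (invariants (ρ.comp (H i).subtype)) : ℤ) := by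
  classical
  have : NeZero (Nat.card G : ℚ) := ⟨by exact_mod_cast Nat.card_pos.ne'⟩
  have hG : (Nat.card G : ℚ) ≠ 0 := NeZero.ne _
  let _ : Invertible (Nat.card G : ℚ) := invertibleOfNonzero hG
  have h1 := card_inv_mul_sum_char_eq_finrank ρ
  have h2 : ∀ i, (Nat.card G : ℚ) * finrank ℚ (invariants (ρ.comp (H i).subtype)) =
      ∑ g : G, (fx (H i) g : ℚ) * ρ.character g := by
    intro i
    let _ : Fintype (H i) := Fintype.ofFinite _
    have hH : (Nat.card (H i) : ℚ) ≠ 0 := by exact_mod_cast Nat.card_pos.ne'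
    let _ : Invertible (Nat.card (H i) : ℚ) := invertibleOfNonzero hH
    have h3 := card_inv_mul_sum_char_eq_finrank (ρ.comp (H i).subtype)
    rw [sum_fx (H i) ρ.character fun x g => char_conj ρ g x, ← h3, finsum_eq_sum_of_fintype]
    rfl
  have h3 : (Nat.card G : ℚ) * ((m : ℚ) * finrank ℚ (invariants ρ)) =
      (Nat.card G : ℚ) * ∑ i, (e i : ℚ) * finrank ℚ (invariants (ρ.comp (H i).subtype)) := by
    calc (Nat.card G : ℚ) * ((m : ℚ) * finrank ℚ (invariants ρ))
        = m * ∑ g : G, ρ.character g := by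
          rw [← h1]
          field_simp
      _ = ∑ g : G, (∑ i, (e i : ℚ) * fx (H i) g) * ρ.character g := by
          rw [Finset.mul_sum]
          refine Finset.sum_congr rfl fun g _ => ?_
          congr 1
          exact_mod_cast (h g).symm
      _ = ∑ i, (e i : ℚ) * ∑ g : G, (fx (H i) g : ℚ) * ρ.character g := by
          simp_rw [Finset.sum_mul, Finset.mul_sum, mul_assoc]
          exact Finset.sum_comm
      _ = _ := by
          rw [Finset.mul_sum]
          refine Finset.sum_congr rfl fun i _ => ?_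
          rw [← h2]
          ring
  have h4 := mul_left_cancel₀ hG h3
  exact_mod_cast h4

/-- the relation for the dimensions of the invariants -/
theorem rel_inv [Nonempty ι] {V : Type} [AddCommGroup V] [Module ℚ V]
    (ρ : Representation ℚ G V) (h : ∀ g : G, ∑ i, e i * fx (H i) g = m)
    (hfin : ∀ i, FiniteDimensional ℚ (invariants (ρ.comp (H i).subtype))) :
    FiniteDimensional ℚ (invariants ρ) ∧ m * (finrank ℚ (invariants ρ) : ℤ) =
      ∑ i, e i * (finrank ℚ (invariants (ρ.comp (H i).subtype)) : ℤ) := by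
  classical
  let S : Submodule ℚ V := ⨆ i, invariants (ρ.comp (H i).subtype)
  let W : Submodule ℚ V := ⨆ g : G, S.map (ρ g)
  have hSfin : FiniteDimensional ℚ S := inferInstance
  have hWfin : FiniteDimensional ℚ W := inferInstance
  have hSW : S ≤ W := by
    refine le_trans ?_ (le_iSup (fun g : G => S.map (ρ g)) 1)
    intro x hx
    exact ⟨x, hx, by simp⟩
  have hW : ∀ g : G, ∀ x ∈ W, ρ g x ∈ W := by
    intro g x hx
    have h1 : W.map (ρ g) ≤ W := by
      rw [Submodule.map_iSup]
      refine iSup_le fun g' => ?_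
      rw [← Submodule.map_comp]
      have e1 : (ρ g).comp (ρ g') = ρ (g * g') := by rw [map_mul]; rfl
      rw [e1]
      exact le_iSup (fun g : G => S.map (ρ g)) (g * g')
    exact h1 ⟨x, hx, rfl⟩
  let ρW : Representation ℚ G W :=
    { toFun := fun g => (ρ g).restrict (hW g)
      map_one' := by
        ext x
        simp [LinearMap.restrict_apply]
      map_mul' := by
        intro g g'
        ext x
        simp [LinearMap.restrict_apply] }
  have hρW : ∀ (g : G) (x : W), ((ρW g x : W) : V) = ρ g x := fun g x => rfl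
  have key : ∀ K : Subgroup G, invariants (ρ.comp K.subtype) ≤ W →
      Nonempty (invariants (ρW.comp K.subtype) ≃ₗ[ℚ] invariants (ρ.comp K.subtype)) := by
    intro K hK
    have e1 : invariants (ρW.comp K.subtype) =
        (invariants (ρ.comp K.subtype)).comap W.subtype := by
      ext x
      rw [Submodule.mem_comap, mem_invariants, mem_invariants]
      refine forall_congr' fun k => ?_
      rw [← Subtype.coe_inj]
      rfl
    rw [e1]
    exact ⟨Submodule.comapSubtypeEquivOfLe hK⟩
  have hle : ∀ i, invariants (ρ.comp (H i).subtype) ≤ W := fun i =>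
    (le_iSup (fun i => invariants (ρ.comp (H i).subtype)) i).trans hSW
  have hle0 : invariants ρ ≤ W := by
    obtain ⟨i⟩ := ‹Nonempty ι›
    refine le_trans ?_ (hle i)
    intro x hx k
    exact hx k
  have e0 : Nonempty (invariants ρW ≃ₗ[ℚ] invariants ρ) := by
    have e1 : invariants ρW = (invariants ρ).comap W.subtype := by
      ext x
      rw [Submodule.mem_comap, mem_invariants, mem_invariants]
      refine forall_congr' fun k => ?_
      rw [← Subtype.coe_inj]
      rfl
    rw [e1]
    exact ⟨Submodule.comapSubtypeEquivOfLe hle0⟩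
  have h1 := rel_fin H e m ρW h
  obtain ⟨e0⟩ := e0
  refine ⟨Module.Finite.equiv e0, ?_⟩
  rw [e0.finrank_eq] at h1
  rw [h1]
  refine Finset.sum_congr rfl fun i _ => ?_
  obtain ⟨ei⟩ := key (H i) (hle i)
  rw [ei.finrank_eq]

end chars

section tensor

variable {G : Type} [Group G] [Fintype G] {A : Type} [AddCommGroup A]

/-- the fixed elements -/
noncomputable def fixed (α : Representation ℤ G A) (H : Subgroup G) : Submodule ℤ A :=
  invariants (α.comp H.subtype)

/-- extension of scalars -/
noncomputable def ext (α : Representation ℤ G A) : Representation ℚ G (ℚ ⊗[ℤ] A) where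
  toFun g := (α g).baseChange ℚ
  map_one' := by
    rw [map_one]
    exact LinearMap.baseChange_id
  map_mul' g g' := by
    rw [map_mul]
    exact LinearMap.baseChange_comp _ _

omit [Fintype G] in
theorem ext_apply (α : Representation ℤ G A) (g : G) (q : ℚ) (a : A) :
    ext α g (q ⊗ₜ[ℤ] a) = q ⊗ₜ[ℤ] (α g a) := rfl

theorem isLoc (A : Type) [AddCommGroup A] :
    IsLocalizedModule (nonZeroDivisors ℤ) (TensorProduct.mk ℤ ℚ A 1) :=
  (isLocalizedModule_iff_isBaseChange (nonZeroDivisors ℤ) ℚ _).2
    (TensorProduct.isBaseChange ℤ A ℚ)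

theorem rank_fixed (α : Representation ℤ G A) (H : Subgroup G) :
    Module.rank ℚ (invariants ((ext α).comp H.subtype)) = Module.rank ℤ (fixed α H) := by
  classical
  let _ : Fintype H := Fintype.ofFinite _
  have hloc := isLoc A
  let f : fixed α H →ₗ[ℤ] invariants ((ext α).comp H.subtype) :=
    { toFun := fun a => ⟨(1 : ℚ) ⊗ₜ[ℤ] (a : A), fun h => by
        change ext α h ((1 : ℚ) ⊗ₜ[ℤ] (a : A)) = _
        rw [ext_apply]
        congr 1
        exact a.2 h⟩
      map_add' := fun a b => Subtype.ext (TensorProduct.tmul_add _ _ _)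
      map_smul' := fun r a => Subtype.ext (by
        change (1 : ℚ) ⊗ₜ[ℤ] (r • (a : A)) = r • ((1 : ℚ) ⊗ₜ[ℤ] (a : A))
        rw [TensorProduct.tmul_smul]) }
  have hf : IsLocalizedModule (nonZeroDivisors ℤ) f := by
    constructor
    · intro s
      rw [Module.End.isUnit_iff]
      have hs : ((s : ℤ) : ℚ) ≠ 0 := by exact_mod_cast nonZeroDivisors.ne_zero s.2
      constructor
      · intro x y hxy
        have h1 : (s : ℤ) • x = (s : ℤ) • y := hxy
        rw [← Int.cast_smul_eq_zsmul ℚ, ← Int.cast_smul_eq_zsmul ℚ] at h1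
        exact smul_right_injective _ hs h1
      · intro y
        refine ⟨((s : ℤ) : ℚ)⁻¹ • y, ?_⟩
        change (s : ℤ) • (((s : ℤ) : ℚ)⁻¹ • y) = y
        rw [← Int.cast_smul_eq_zsmul ℚ, smul_smul, mul_inv_cancel₀ hs, one_smul]
    · intro y
      obtain ⟨⟨a, s⟩, has⟩ := IsLocalizedModule.surj (nonZeroDivisors ℤ)
        (TensorProduct.mk ℤ ℚ A 1) (y : ℚ ⊗[ℤ] A)
      have has' : (s : ℤ) • (y : ℚ ⊗[ℤ] A) = (1 : ℚ) ⊗ₜ[ℤ] a := has
      have hcard : (Fintype.card H : ℤ) ∈ nonZeroDivisors ℤ := by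
        rw [mem_nonZeroDivisors_iff_ne_zero]
        exact_mod_cast Fintype.card_ne_zero
      refine ⟨(⟨∑ h : H, α h a, ?_⟩, ⟨(Fintype.card H : ℤ), hcard⟩ * s), ?_⟩
      · intro k
        change α (k : G) (∑ h : H, α h a) = ∑ h : H, α h a
        rw [map_sum, ← Equiv.sum_comp (Equiv.mulLeft k) (fun h : H => α (h : G) a)]
        refine Finset.sum_congr rfl fun h _ => ?_
        change _ = α ((k * h : H) : G) a
        rw [Subgroup.coe_mul, map_mul]
        rfl
      · apply Subtype.ext
        change ((Fintype.card H : ℤ) * (s : ℤ)) • (y : ℚ ⊗[ℤ] A) =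
          (1 : ℚ) ⊗ₜ[ℤ] (∑ h : H, α h a)
        rw [TensorProduct.tmul_sum, mul_smul, has']
        have h1 : ∀ h : H, (1 : ℚ) ⊗ₜ[ℤ] (α h a) = (1 : ℚ) ⊗ₜ[ℤ] a := by
          intro h
          rw [← ext_apply, ← has', map_zsmul]
          congr 1
          exact y.2 h
        rw [Finset.sum_congr rfl fun h _ => h1 h, Finset.sum_const, Finset.card_univ,
          natCast_zsmul]
    · intro a b hab
      have h1 : (1 : ℚ) ⊗ₜ[ℤ] (a : A) = (1 : ℚ) ⊗ₜ[ℤ] (b : A) := congrArg Subtype.val hab
      obtain ⟨c, hc⟩ := IsLocalizedModule.exists_of_eq (S := nonZeroDivisors ℤ)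
        (f := TensorProduct.mk ℤ ℚ A 1) h1
      exact ⟨c, Subtype.ext hc⟩
  have h1 := IsLocalizedModule.rank_eq (nonZeroDivisors ℤ) le_rfl f
  rw [← h1]
  exact IsFractionRing.rank_right_eq ℤ ℚ _

end tensor

end Pool.Agent.R333.BR
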